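import Pool.Agent.H328R3.SFin
import Pool.Agent.Helper185.SelHur
import Pool.Agent.Helper185.SelMore
import Pool.Agent.Helper185.SierpPow
import Pool.Agent.Helper292.ForceCH

/-!
Finite powers of the selection properties with tau-covers: `S₁(Ω, T)` is preserved, the six others
are consistently not preserved.
-/

set_option autoImplicit false

namespace Pool.Agent.Results.MP_24a1d9_gt.AllPowers

open Pool.Agent.Helper185.Sel

/-- `S₁(T, Γ)` for the open covers of a space. -/
def S1TG (X : Type) [TopologicalSpace X] : Prop := S1 (TauOf (OpenFam X)) (GammaOf (OpenFam X))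

/-- `S₁(T, T)` for the open covers of a space. -/
def S1TT (X : Type) [TopologicalSpace X] : Prop := S1 (TauOf (OpenFam X)) (TauOf (OpenFam X))

/-- `S₁(T, Ω)` for the open covers of a space. -/
def S1TO (X : Type) [TopologicalSpace X] : Prop := S1 (TauOf (OpenFam X)) (OmegaOf (OpenFam X))

/-- `S_fin(T, T)` for the open covers of a space. -/
def SfinTT (X : Type) [TopologicalSpace X] : Prop := Sfin (TauOf (OpenFam X)) (TauOf (OpenFam X))

/-- `S_fin(T, Ω)` for the open covers of a space. -/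
def SfinTO (X : Type) [TopologicalSpace X] : Prop := Sfin (TauOf (OpenFam X)) (OmegaOf (OpenFam X))

/-- `S₁(Ω, T)` for the open covers of a space. -/
def S1OT (X : Type) [TopologicalSpace X] : Prop := S1 (OmegaOf (OpenFam X)) (TauOf (OpenFam X))

/-- `S_fin(Ω, T)` for the open covers of a space. -/
def SfinOT (X : Type) [TopologicalSpace X] : Prop := Sfin (OmegaOf (OpenFam X)) (TauOf (OpenFam X))

theorem sfin_of_s1 {X : Type*} {A B : Set (Set (Set X))} (h : S1 A B) : Sfin A B := by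
  intro U hU
  obtain ⟨V, hV, hV2⟩ := h U hU
  refine ⟨fun n => {V n}, fun n => ⟨Set.finite_singleton _, Set.singleton_subset_iff.2 (hV n)⟩, ?_⟩
  rw [Set.iUnion_singleton_eq_range]
  exact hV2

theorem sfin_mono {X : Type*} {A B A' B' : Set (Set (Set X))} (hA : A' ⊆ A) (hB : B ⊆ B')
    (h : Sfin A B) : Sfin A' B' := by
  intro U hU
  obtain ⟨F, hF, hF2⟩ := h U (fun n => hA (hU n))
  exact ⟨F, hF, hB hF2⟩

/-- (1) If a set of reals satisfies `S₁(Ω, T)`, then so does each of its finite powers.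
(2) Some forcing notion forces, below every condition, that `ω₁` is preserved and that the
continuum hypothesis holds. (3) The continuum hypothesis implies that there is a set of reals
satisfying `S_fin(Ω, T)` whose square does not; the square even has an open omega-cover no
subfamily of which is a tau-cover. (4) The continuum hypothesis implies that there is a set of
reals satisfying all of `S₁(T, Γ)`, `S₁(T, T)`, `S₁(T, Ω)`, `S_fin(T, T)`, `S_fin(T, Ω)` whose
square satisfies none of them. -/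
theorem result :
    (∀ X : Set ℝ, S1OT X → ∀ k : ℕ, 1 ≤ k → S1OT (Fin k → X)) ∧
    (∃ (P : Type) (_ : Preorder P), Nonempty P ∧ ∀ p : P,
      p ∈ Pool.Agent.Helper292.ForceCH.OmegaOnePreserved P ∧
      p ∈ Pool.Agent.Helper292.ForceCH.CHHolds P) ∧
    (Cardinal.aleph 1 = Cardinal.continuum.{0} →
      ∃ X : Set ℝ, SfinOT X ∧ ¬ SfinOT (Fin 2 → X) ∧
        ∃ U ∈ OmegaOf (OpenFam (Fin 2 → X)), ∀ V ⊆ U, V ∉ TauOf (OpenFam (Fin 2 → X))) ∧
    (Cardinal.aleph 1 = Cardinal.continuum.{0} →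
      ∃ X : Set ℝ, (S1TG X ∧ S1TT X ∧ S1TO X ∧ SfinTT X ∧ SfinTO X) ∧
        ¬ S1TG (Fin 2 → X) ∧ ¬ S1TT (Fin 2 → X) ∧ ¬ S1TO (Fin 2 → X) ∧
        ¬ SfinTT (Fin 2 → X) ∧ ¬ SfinTO (Fin 2 → X)) := by
  refine ⟨fun X h k _ => s1_omega_tau_pow h, ?_, fun hCH => ?_, fun hCH => ?_⟩
  · obtain ⟨P, i, h1, h2⟩ := Pool.Agent.Helper292.ForceCH.exists_forcing
    exact ⟨P, i, h1, fun p => ⟨(h2 p).1, (h2 p).2.2⟩⟩
  · obtain ⟨X, h1, h2⟩ := Pool.Agent.H328R3.SF.sfin_omega_tau hCH
    refine ⟨X, h1, fun h => h2 (Pool.Agent.H328R3.SF.choose_of_sfin h), ?_⟩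
    unfold Pool.Agent.Helper185.Sel.Choose at h2
    push Not at h2
    exact h2
  · obtain ⟨X, h1, -, h3⟩ := Pool.Agent.Helper185.Sierp.exists_tau_square hCH
    have hne : Nonempty X := by
      by_contra hcon
      rw [not_nonempty_iff] at hcon
      apply h3
      intro U hU
      exfalso
      have h4 := (hU 0).2.1.2
      have h5 := (hU 0).2.2.1
      apply h5
      have : IsEmpty (Fin 2 → X) := ⟨fun f => hcon.elim (f 0)⟩
      exact Set.Finite.subset (Set.finite_singleton (Set.univ : Set (Fin 2 → X)))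
        (fun u _ => Set.mem_singleton_iff.2 (Subsingleton.elim _ _))
    have hTG : S1 (TauOf (OpenFam X)) (GammaOf (OpenFam X)) := h1
    have hTT : S1 (TauOf (OpenFam X)) (TauOf (OpenFam X)) := S1.mono_right hTG gamma_sub_tau
    have hTO : S1 (TauOf (OpenFam X)) (OmegaOf (OpenFam X)) := S1.mono_right hTT tau_sub_omega
    have key : ∀ B : Set (Set (Set (Fin 2 → X))), B ⊆ CovOf (OpenFam (Fin 2 → X)) →
        ¬ Sfin (TauOf (OpenFam (Fin 2 → X))) B := by
      intro B hB h
      exact h3 (sfin_mono gamma_sub_tau hB h)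
    have hG : GammaOf (OpenFam (Fin 2 → X)) ⊆ CovOf (OpenFam (Fin 2 → X)) :=
      fun u hu => ⟨hu.1, hu.2.1⟩
    have hT : TauOf (OpenFam (Fin 2 → X)) ⊆ CovOf (OpenFam (Fin 2 → X)) :=
      fun u hu => ⟨hu.1, hu.2.1⟩
    have hO : OmegaOf (OpenFam (Fin 2 → X)) ⊆ CovOf (OpenFam (Fin 2 → X)) :=
      fun u hu => ⟨hu.1, hu.2.1⟩
    exact ⟨X, ⟨hTG, hTT, hTO, sfin_of_s1 hTT, sfin_of_s1 hTO⟩,
      fun h => key _ hG (sfin_of_s1 h), fun h => key _ hT (sfin_of_s1 h),
      fun h => key _ hO (sfin_of_s1 h), key _ hT, key _ hO⟩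

end Pool.Agent.Results.MP_24a1d9_gt.AllPowers
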